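import Pool.Agent.helper26.T5.SpecB

set_option autoImplicit false

namespace Pool.Agent.helper30.T5

open NumberField Pool.Agent.helper3.FT Pool.Agent.helper47.RA Pool.Agent.T5 Pool.Agent.helper26.T5

variable {K : Type} [Field K] [NumberField K]

/-- units of a quadratic field of discriminant below `-4` -/
theorem LYT_unit (Q : QF K) (hD : Q.D < -4) (u : 𝓞 K) (hu : IsUnit u) : u = 1 ∨ u = -1 := by
  obtain ⟨x, hx⟩ := Q.exists_re u
  generalize Q.Y u = y at hx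
  have h1 : u * Q.cj u = ((x ^ 2 + Q.t * x * y - Q.k * y ^ 2 : ℤ) : 𝓞 K) := by
    rw [hx, Q.norm_form]
  have h2 := Q.absNorm_eq u _ h1
  have h3 : Ideal.span {u} = (⊤ : Ideal (𝓞 K)) := Ideal.span_singleton_eq_top.2 hu
  rw [h3, Ideal.absNorm_top] at h2
  have h4 : 4 * (x ^ 2 + Q.t * x * y - Q.k * y ^ 2) = (2 * x + Q.t * y) ^ 2 - Q.D * y ^ 2 := by
    rw [Q.hk]
    linear_combination (-(y ^ 2)) * Q.t_sq
  have h5 : x ^ 2 + Q.t * x * y - Q.k * y ^ 2 ≤ 1 := by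
    have h6 := le_abs_self (x ^ 2 + Q.t * x * y - Q.k * y ^ 2)
    rw [← h2] at h6
    exact_mod_cast h6
  have hy : y = 0 := by
    by_contra hy
    have h7 : 0 < y ^ 2 := by positivity
    have h8 : 1 ≤ y ^ 2 := h7
    have h9 : 0 ≤ (2 * x + Q.t * y) ^ 2 := sq_nonneg _
    nlinarith
  rw [hy] at h2 hx
  have h10 : |x ^ 2| = 1 := by
    have h11 : x ^ 2 + Q.t * x * 0 - Q.k * 0 ^ 2 = x ^ 2 := by ring
    rw [h11] at h2
    rw [← h2]
    norm_num
  rw [abs_of_nonneg (sq_nonneg x)] at h10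
  have h12 : (x - 1) * (x + 1) = 0 := by linear_combination h10
  rcases mul_eq_zero.1 h12 with h | h
  · left
    have h13 : x = 1 := by omega
    rw [hx, h13]; simp
  · right
    have h13 : x = -1 := by omega
    rw [hx, h13]; simp

theorem lyt : LYT := by
  intro K _ _ Q a θ hD ha hθ hnp
  have hnorm : (Q.v₁ θ) ^ 2 = (Ideal.absNorm a : ℝ) ^ 5 := by
    have h1 := Q.hnorm θ
    rw [hθ, map_pow, ← Q.himag (by linarith) θ] at h1
    push_cast at h1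
    rw [pow_two, ← h1]
  refine ⟨?_, ?_, ?_⟩
  · intro hY
    obtain ⟨c, hc⟩ := (Q.Y_eq_zero_iff θ).1 hY
    have h1 : Q.bar a = a := by
      apply Pool.Agent.helper3.FT.pow_inj _ _ 5 (by norm_num)
      rw [← Q.bar_pow, ← hθ, Q.bar_span, hc, Q.cj_int]
    have h2 : a * a = Ideal.span {(Ideal.absNorm a : 𝓞 K)} := by
      have h3 := Q.mul_bar a
      rw [h1] at h3
      exact h3
    have h4 : Ideal.span {θ} = Ideal.span {(Ideal.absNorm a : 𝓞 K) * (Ideal.absNorm a : 𝓞 K)} * a := by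
      rw [hθ, ← Ideal.span_singleton_mul_span_singleton, ← h2]
      ring
    have hZ : (Ideal.absNorm a : 𝓞 K) ≠ 0 := by
      rw [Nat.cast_ne_zero, Ne, Ideal.absNorm_eq_zero_iff]
      exact ha
    obtain ⟨y, -, hy⟩ := exists_div_aux θ _ (mul_ne_zero hZ hZ) a h4
    exact hnp ⟨⟨y, hy.symm⟩⟩
  · have h1 := Q.Y_bound θ
    rw [← Q.himag (by linarith) θ] at h1
    have h2 : 0 ≤ |(Q.Y θ : ℝ)| * √|(Q.D : ℝ)| := by positivity
    have h3 : (|(Q.Y θ : ℝ)| * √|(Q.D : ℝ)|) ^ 2 ≤ (Q.v₁ θ + Q.v₁ θ) ^ 2 :=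
      pow_le_pow_left₀ h2 h1 2
    rw [mul_pow, sq_abs, Real.sq_sqrt (abs_nonneg _)] at h3
    calc (Q.Y θ : ℝ) ^ 2 * |(Q.D : ℝ)| ≤ (Q.v₁ θ + Q.v₁ θ) ^ 2 := h3
      _ = 4 * (Q.v₁ θ) ^ 2 := by ring
      _ = 4 * (Ideal.absNorm a : ℝ) ^ 5 := by rw [hnorm]
  · intro θ' hθ'
    have h1 : Ideal.span {θ'} = Ideal.span {θ} := by rw [hθ', hθ]
    obtain ⟨u, hu⟩ := Ideal.span_singleton_eq_span_singleton.1 h1
    rcases LYT_unit Q hD u u.isUnit with h | h
    · left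
      rw [h, mul_one] at hu
      exact hu
    · right
      rw [h] at hu
      rw [← hu]
      ring

end Pool.Agent.helper30.T5
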